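import Pool.Agent.H75.L8.H518R5.SC.Stubs
import Pool.Agent.H75.L8.H85R2.Kad4.Polar

/-!
Task POLC: polar decomposition in a concrete von Neumann algebra.
-/

set_option autoImplicit false

open scoped ComplexOrder Topology InnerProductSpace
open Filter

noncomputable section

namespace Pool.Agent.H518R5.SC

open Pool.Agent.H467F Pool.Agent.H518R4.UG

theorem POLC_abs {H : Type} [NormedAddCommGroup H] [InnerProductSpace ℂ H] [CompleteSpace H]
    (x : H →L[ℂ] H) : ∃ a : H →L[ℂ] H, star a = a ∧ a * a = star x * x ∧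
    ∀ y : H →L[ℂ] H, star x * x * y = y * (star x * x) → a * y = y * a := by
  refine ⟨CFC.abs x, (CFC.abs_nonneg x).isSelfAdjoint.star_eq, CFC.abs_mul_abs x, ?_⟩
  intro y h
  have h3 : Commute (star x * x) y := h
  exact (Commute.cfcₙ_nnreal h3 _ : Commute (CFC.abs x) y)

theorem POLC_mem {H : Type} [NormedAddCommGroup H] [InnerProductSpace ℂ H] [CompleteSpace H]
    (N : VonNeumannAlgebra H) (v : H →L[ℂ] H)
    (h : ∀ y : H →L[ℂ] H, (∀ x ∈ N, x * y = y * x) → v * y = y * v) : v ∈ N := by
  rw [← VonNeumannAlgebra.commutant_commutant N, VonNeumannAlgebra.mem_commutant_iff]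
  intro y hy
  rw [VonNeumannAlgebra.mem_commutant_iff] at hy
  exact (h y hy).symm

theorem p_POLC : S_POLC := by
  intro H _ _ _ N x
  obtain ⟨a, ha, haa, hc⟩ := POLC_abs (x : H →L[ℂ] H)
  obtain ⟨v, hva, hvv, hv0, huniq⟩ := H759R2.Kad.S85.exists_polar (x : H →L[ℂ] H) a ha haa
  have hx : (x : H →L[ℂ] H) ∈ N := x.2
  have hcom : ∀ y : H →L[ℂ] H, (∀ z ∈ N, z * y = y * z) → a * y = y * a := by
    intro y hy
    apply hc
    have h1 := hy _ hx
    have h2 := hy (star (x : H →L[ℂ] H)) (star_mem hx)
    rw [mul_assoc, h1, ← mul_assoc, h2, mul_assoc]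
  have haN : a ∈ N := POLC_mem N a hcom
  have hvN : v ∈ N := by
    apply POLC_mem N v
    intro y hy
    have h1 : (x : H →L[ℂ] H) * y = y * (x : H →L[ℂ] H) := hy _ hx
    have h3 : a * y = y * a := hcom y hy
    refine (huniq _ _ ?_ ?_).symm
    · rw [mul_assoc, hva, mul_assoc, ← h3, ← mul_assoc, hva, h1]
    · intro ζ hζ
      show y (v ζ) = v (y ζ)
      have h4 : a (y ζ) = 0 := by
        have := congrArg (fun T : H →L[ℂ] H => T ζ) h3
        have h5 : a (y ζ) = y (a ζ) := this
        rw [h5, hζ, map_zero]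
      rw [hv0 ζ hζ, map_zero, hv0 _ h4]
  refine ⟨⟨v, hvN⟩, ⟨a, haN⟩, Subtype.ext ha, Subtype.ext haa, Subtype.ext hva, ⟨?_, ?_⟩, ⟨?_, ?_⟩,
    ?_, ?_, ?_, ?_⟩
  · rw [star_mul, star_star]
  · apply Subtype.ext
    show star v * v * (star v * v) = star v * v
    calc star v * v * (star v * v) = star v * (v * star v * v) := by simp only [mul_assoc]
      _ = star v * v := by rw [hvv]
  · rw [star_mul, star_star]
  · apply Subtype.ext
    show v * star v * (v * star v) = v * star v
    calc v * star v * (v * star v) = (v * star v * v) * star v := by simp only [mul_assoc]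
      _ = v * star v := by rw [hvv]
  · intro f _ hf
    apply Subtype.ext
    show (f : H →L[ℂ] H) * v = v
    have hf' : (f : H →L[ℂ] H) * (x : H →L[ℂ] H) = x := congrArg Subtype.val hf
    refine huniq _ _ ?_ ?_
    · rw [mul_assoc, hva, hf']
    · intro ζ hζ
      show (f : H →L[ℂ] H) (v ζ) = v ζ
      rw [hv0 ζ hζ, map_zero]
  · intro e _ he
    have he' : (x : H →L[ℂ] H) * (e : H →L[ℂ] H) = x := congrArg Subtype.val he
    have h1 : ∀ ξ : H, a (ξ - (e : H →L[ℂ] H) ξ) = 0 := by
      intro ξ
      have h2 := H759R2.Kad.S85.norm_eq_of (x : H →L[ℂ] H) a ha haa (ξ - (e : H →L[ℂ] H) ξ)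
      have h3 : (x : H →L[ℂ] H) ((e : H →L[ℂ] H) ξ) = (x : H →L[ℂ] H) ξ :=
        congrArg (fun T : H →L[ℂ] H => T ξ) he'
      rw [map_sub (x : H →L[ℂ] H), h3, sub_self, norm_zero] at h2
      exact norm_eq_zero.1 h2
    constructor
    · apply Subtype.ext
      show v * (e : H →L[ℂ] H) = v
      ext ξ
      show v ((e : H →L[ℂ] H) ξ) = v ξ
      have h2 := hv0 _ (h1 ξ)
      rw [map_sub, sub_eq_zero] at h2
      exact h2.symm
    · apply Subtype.ext
      show a * (e : H →L[ℂ] H) = a
      ext ξ
      show a ((e : H →L[ℂ] H) ξ) = a ξ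
      have h2 := h1 ξ
      rw [map_sub, sub_eq_zero] at h2
      exact h2.symm
  · apply Subtype.ext
    show star v * v * a = a
    have h1 : a * (star v * v) * a = a * a := by
      calc a * (star v * v) * a = (star a * star v) * (v * a) := by
            rw [ha]; simp only [mul_assoc]
        _ = star (v * a) * (v * a) := by rw [star_mul]
        _ = a * a := by rw [hva, haa]
    have h2 : star (a - star v * v * a) * (a - star v * v * a) = 0 := by
      have h3 : star (a - star v * v * a) = a - a * (star v * v) := by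
        rw [star_sub, star_mul, star_mul, star_star, ha]
      have h4 : a * (star v * v) * (star v * v * a) = a * (star v * v) * a := by
        calc a * (star v * v) * (star v * v * a) = a * (star v * (v * star v * v)) * a := by
              simp only [mul_assoc]
          _ = a * (star v * v) * a := by rw [hvv]
      have h5 : a * (star v * v * a) = a * (star v * v) * a := by simp only [mul_assoc]
      rw [h3, mul_sub, sub_mul, sub_mul, h4, h5, h1]
      abel
    have h3 := (CStarRing.star_mul_self_eq_zero_iff _).1 h2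
    exact (sub_eq_zero.1 h3).symm
  · intro y hy
    apply Subtype.ext
    exact hc (y : H →L[ℂ] H) (congrArg Subtype.val hy)

end Pool.Agent.H518R5.SC
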